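import Pool.Agent.Lib.MP_defcf3_al.FR.NDefs

/-! Rows N-FI and N-RI of THEOREM N. -/

set_option autoImplicit false

namespace Pool.Agent.Lib.MP_defcf3_al.FR.H38

universe u

open BR7 BRP Pool.Agent.Lib.MP_defcf3_al.FR

section

variable {G A : Type u} [Group G] [TopologicalSpace G] [CommGroup A] [MulDistribMulAction G A]

/-- Restriction of cocycles. -/
def resZ (H : Subgroup G) : Z2 G A →* Z2 H A where
  toFun f := ⟨fun g h => f.1 g h, by
    refine ⟨?_, fun g h k => f.2.2 g h k⟩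
    exact f.2.1.comp_continuous (f := fun p : H × H => ((p.1 : G), (p.2 : G))) (by fun_prop)⟩
  map_one' := rfl
  map_mul' _ _ := rfl

theorem resZ_mem (H : Subgroup G) :
    (B2 G A).subgroupOf (Z2 G A) ≤ ((B2 H A).subgroupOf (Z2 H A)).comap (resZ H) := by
  rintro f ⟨b, hb, e⟩
  refine ⟨fun g => b g, hb.comp_continuous continuous_subtype_val, fun g h => e g h⟩

/-- Restriction of classes. -/
def resH (H : Subgroup G) : H2 G A →* H2 H A :=
  QuotientGroup.map _ _ (resZ H) (resZ_mem H)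

theorem mk_eq_one (f : Z2 G A) : (QuotientGroup.mk f : H2 G A) = 1 ↔ f.1 ∈ B2 G A := by
  rw [QuotientGroup.eq_one_iff]
  exact Subgroup.mem_subgroupOf

end

theorem ri (ℓ : ℕ) [Fact ℓ.Prime] : StRI.{u} ℓ := by
  intro G A _ _ _ _ _ hA H hH hfin hcop hT
  refine Set.Finite.of_injOn (f := resH H) (t := {c : H2 H A | c ^ ℓ = 1}) ?_ ?_ hT
  · intro c hc
    show (resH H c) ^ ℓ = 1
    rw [← map_pow, show c ^ ℓ = 1 from hc, map_one]
  · intro c hc c' hc' he
    have h1 : (c / c') ^ ℓ = 1 := by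
      rw [div_pow, show c ^ ℓ = 1 from hc, show c' ^ ℓ = 1 from hc', div_one]
    have h2 : resH H (c / c') = 1 := by
      rw [map_div, he, div_self']
    obtain ⟨f, hf⟩ := QuotientGroup.mk_surjective (c / c')
    rw [← hf] at h2
    have h3 : (QuotientGroup.mk (resZ H f) : H2 H A) = 1 := h2
    rw [mk_eq_one] at h3
    have h4 := BR7.H38.corres G A hA H hH hfin f.1 f.2 h3
    have h5 : (c / c') ^ H.index = 1 := by
      rw [← hf, ← QuotientGroup.mk_pow, mk_eq_one]
      exact h4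
    have h6 : (c / c') = 1 := by
      have h7 := orderOf_dvd_of_pow_eq_one h1
      have h8 := orderOf_dvd_of_pow_eq_one h5
      have h9 : orderOf (c / c') ∣ 1 := by
        rw [← hcop]
        exact Nat.dvd_gcd h8 h7
      rw [← orderOf_eq_one_iff]
      exact Nat.dvd_one.mp h9
    exact div_eq_one.mp h6

theorem fin_pow {M : Type*} [CommGroup M] (ℓ : ℕ) (h : Set.Finite {c : M | c ^ ℓ = 1}) (n : ℕ) :
    Set.Finite {c : M | c ^ (ℓ ^ n) = 1} := by
  induction n with
  | zero =>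
    refine Set.Finite.subset (Set.finite_singleton (1 : M)) ?_
    intro c hc
    simpa using hc
  | succ n ih =>
    refine Set.Finite.of_finite_fibers (fun c : M => c ^ ℓ) (ih.subset ?_) ?_
    · rintro _ ⟨c, hc, rfl⟩
      show (c ^ ℓ) ^ (ℓ ^ n) = 1
      rw [← pow_mul, ← pow_succ']
      exact hc
    · rintro _ ⟨c, hc, rfl⟩
      refine (h.image (fun z => z * c)).subset ?_
      rintro b ⟨hb, hbc⟩
      refine ⟨b / c, ?_, div_mul_cancel b c⟩
      show (b / c) ^ ℓ = 1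
      rw [div_pow, show b ^ ℓ = c ^ ℓ from hbc, div_self']

theorem fi (ℓ : ℕ) [Fact ℓ.Prime] : StFI.{u} ℓ := by
  intro G A _ _ _ _ _ hA hT n X hX hXc U _ ι hι
  haveI : NeZero (ℓ ^ n) := ⟨pow_ne_zero _ (Fact.out : ℓ.Prime).ne_zero⟩
  have hZ := fun x : U => BR7.H38.cup_mem_Z2 BR7.H38.gz hA (ℓ ^ n) (ι x) (fun g => hι x g) X hX hXc
  let φ : U →* H2 G A :=
    { toFun := fun x => QuotientGroup.mk ⟨cup (ℓ ^ n) (ι x) X, hZ x⟩
      map_one' := by
        rw [mk_eq_one]
        have h1 : cup (ℓ ^ n) (ι 1) X = 1 := by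
          funext g h
          simp [cup]
        show cup (ℓ ^ n) (ι 1) X ∈ B2 G A
        rw [h1]
        exact one_mem _
      map_mul' := by
        intro x y
        rw [← QuotientGroup.mk_mul]
        congr 1
        apply Subtype.ext
        show cup (ℓ ^ n) (ι (x * y)) X = cup (ℓ ^ n) (ι x) X * cup (ℓ ^ n) (ι y) X
        rw [map_mul, BR7.H38.cup_mul] }
  have hr : (φ.range : Set (H2 G A)).Finite := by
    refine (fin_pow ℓ hT n).subset ?_
    rintro _ ⟨x, rfl⟩
    show (QuotientGroup.mk (⟨cup (ℓ ^ n) (ι x) X, hZ x⟩ : Z2 G A) : H2 G A) ^ (ℓ ^ n) = 1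
    rw [← QuotientGroup.mk_pow, mk_eq_one]
    exact BR7.H38.cup_tors BR7.H38.gtors hA (ℓ ^ n) (ι x) (fun g => hι x g) X hX hXc
  refine ⟨φ.ker, ?_, ?_⟩
  · haveI : Finite φ.range := hr
    exact Subgroup.finiteIndex_ker φ
  · intro x hx
    have h1 : (QuotientGroup.mk (⟨cup (ℓ ^ n) (ι x) X, hZ x⟩ : Z2 G A) : H2 G A) = 1 := hx
    rw [mk_eq_one] at h1
    exact h1

end Pool.Agent.Lib.MP_defcf3_al.FR.H38
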